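import Pool.Agent.helper62.EN.SpecA

/-!
# MP_07c750, project EN, row CNT: continuity of the entropy of partitions with null boundaries
-/

set_option autoImplicit false

open scoped Topology
open MeasureTheory Filter Set

namespace Pool.Agent.EN

theorem CNT_proof (h1 : FNL_stmt) : CNT_stmt := by
  intro X _ _ _ _ _ _ ι L ρ μ T p P n hρ hT hμ hP
  unfold Hn
  refine tendsto_finsetSum _ fun w _ => ?_
  refine (Real.continuous_negMulLog.tendsto _).comp ?_
  have h2 := ProbabilityMeasure.tendsto_measure_of_null_frontier_of_tendsto' hρ
    (h1 X (μ : Measure X) T p P n w hT hμ hP)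
  exact (ENNReal.tendsto_toReal (measure_ne_top _ _)).comp h2

end Pool.Agent.EN
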