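import Pool.Agent.helper25.EN.Spec

set_option autoImplicit false

namespace EN

open Finset Real

private lemma CEX_fl_v {m : ℕ} (v : Fin m) (x : Om m) : fl v x v = !x v := by
  simp [fl]

private lemma CEX_fl_ne {m : ℕ} (v u : Fin m) (x : Om m) (h : u ≠ v) : fl v x u = x u := by
  simp [fl, Function.update_of_ne h]

private lemma CEX_key {m : ℕ} (Q : Om m → ℝ) (v : Fin m) (C : Finset (Fin m)) (Ψ : Om m → ℝ) (x : Om m) (hv : v ∉ C)
    (h1 : ∀ y, (∀ u ∈ insert v C, y u = x u) → Ψ y = Ψ x)
    (h2 : ∀ y, (∀ u ∈ insert v C, y u = fl v x u) → Ψ y = Ψ (fl v x)) :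
    ∑ y with ∀ u ∈ C, y u = x u, Q y * Ψ y = w Q (insert v C) x * Ψ x + w Q (insert v C) (fl v x) * Ψ (fl v x) := by
  have e1 : w Q (insert v C) x * Ψ x = ∑ y with ∀ u ∈ insert v C, y u = x u, Q y * Ψ y := by
    unfold w
    rw [sum_mul]
    refine sum_congr rfl fun y hy => ?_
    rw [h1 y (mem_filter.1 hy).2]
  have e2 : w Q (insert v C) (fl v x) * Ψ (fl v x) = ∑ y with ∀ u ∈ insert v C, y u = fl v x u, Q y * Ψ y := by
    unfold w
    rw [sum_mul]
    refine sum_congr rfl fun y hy => ?_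
    rw [h2 y (mem_filter.1 hy).2]
  rw [e1, e2, ← sum_union]
  · refine sum_congr ?_ fun _ _ => rfl
    ext y
    simp only [mem_filter, mem_union, mem_univ, true_and]
    constructor
    · intro h
      by_cases hy : y v = x v
      · left
        intro u hu
        rcases mem_insert.1 hu with rfl | hu
        · exact hy
        · exact h u hu
      · right
        intro u hu
        rcases mem_insert.1 hu with rfl | hu
        · rw [CEX_fl_v]
          revert hy
          cases y u <;> cases x u <;> simp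
        · have hne : u ≠ v := fun h' => hv (h' ▸ hu)
          rw [CEX_fl_ne v u x hne]
          exact h u hu
    · rintro (h | h) u hu
      · exact h u (mem_insert_of_mem hu)
      · have hne : u ≠ v := fun h' => hv (h' ▸ hu)
        rw [h u (mem_insert_of_mem hu), CEX_fl_ne v u x hne]
  · rw [Finset.disjoint_left]
    intro y hy hy'
    have a1 := (mem_filter.1 hy).2 v (mem_insert_self v C)
    have a2 := (mem_filter.1 hy').2 v (mem_insert_self v C)
    rw [CEX_fl_v, a1] at a2
    revert a2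
    cases x v <;> simp

theorem CEX (acp : ACP_stmt) : CEX_stmt := by
  intro m Q hQ v C Gd Ψ hG
  have hC : ∀ x ∈ Gd, ∀ y, (∀ u ∈ C x, y u = x u) → C y = C x ∧ y ∈ Gd := fun x hx => (hG x hx).2.1
  -- the weight of the cell
  have hw : ∀ x ∈ Gd, Q x * (a Q (C x) v x * Ψ x + (1 - a Q (C x) v x) * Ψ (fl v x)) =
      ∑ y with ∀ u ∈ C x, y u = x u, Q x * (Q y * Ψ y) / w Q (C x) x := by
    intro x hx
    obtain ⟨hv, hcell, hΨ⟩ := hG x hx
    have hfl : ∀ u ∈ C x, fl v x u = x u := by
      intro u hu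
      exact CEX_fl_ne v u x (fun h' => hv (h' ▸ hu))
    obtain ⟨hCf, hfG⟩ := hcell (fl v x) hfl
    have h2 : ∀ y, (∀ u ∈ insert v (C x), y u = fl v x u) → Ψ y = Ψ (fl v x) := by
      intro y hy
      refine (hG (fl v x) hfG).2.2 y ?_
      rw [hCf]
      exact hy
    have key := CEX_key Q v (C x) Ψ x hv hΨ h2
    rcases eq_or_lt_of_le (hQ.1 x) with h0 | h0
    · rw [← h0]
      simp
    · have A := acp m Q hQ (C x) v x
      have hwpos : 0 < w Q (C x) x := lt_of_lt_of_le h0 A.2.1
      have hfw : w Q (C x) (fl v x) = w Q (C x) x := A.1 (fl v x) hfl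
      have ha := (A.2.2.2.2.2.2 hv).2.2.2 h0
      have h1a : 1 - a Q (C x) v x = w Q (insert v (C x)) (fl v x) / w Q (C x) x := by
        rw [← ha.2]
        unfold a
        rw [hfw]
      rw [h1a, ← Finset.sum_div, ← Finset.mul_sum, key]
      unfold a
      field_simp
  rw [sum_congr rfl hw]
  have hex : ∑ x ∈ Gd, ∑ y with ∀ u ∈ C x, y u = x u, Q x * (Q y * Ψ y) / w Q (C x) x =
      ∑ y ∈ Gd, ∑ x with ∀ u ∈ C y, x u = y u, Q x * (Q y * Ψ y) / w Q (C y) y := by
    rw [Finset.sum_comm' (s := Gd) (t := fun x => univ.filter fun y => ∀ u ∈ C x, y u = x u)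
      (t' := Gd) (s' := fun y => univ.filter fun x => ∀ u ∈ C y, x u = y u)]
    · refine sum_congr rfl fun y hy => sum_congr rfl fun x hx => ?_
      have hxy := (mem_filter.1 hx).2
      obtain ⟨hCx, -⟩ := hC y hy x hxy
      have := (acp m Q hQ (C y) v y).1 x hxy
      rw [hCx, this]
    · intro x y
      simp only [mem_filter, mem_univ, true_and]
      constructor
      · rintro ⟨hx, hxy⟩
        obtain ⟨hCy, hy⟩ := hC x hx y hxy
        refine ⟨?_, hy⟩
        intro u hu
        rw [hCy] at hu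
        exact (hxy u hu).symm
      · rintro ⟨hxy, hy⟩
        obtain ⟨hCx, hx⟩ := hC y hy x hxy
        refine ⟨hx, ?_⟩
        intro u hu
        rw [hCx] at hu
        exact (hxy u hu).symm
  rw [hex]
  refine sum_congr rfl fun y hy => ?_
  rw [← Finset.sum_div, ← Finset.sum_mul]
  have hwy : ∑ x with ∀ u ∈ C y, x u = y u, Q x = w Q (C y) y := rfl
  rw [hwy]
  rcases eq_or_lt_of_le (hQ.1 y) with h0 | h0
  · rw [← h0]
    simp
  · have hwpos : 0 < w Q (C y) y := lt_of_lt_of_le h0 (acp m Q hQ (C y) v y).2.1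
    field_simp

end EN
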